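import Pool.Agent.Helper79.AL.St1

/-! # Project AL (MP_2b6189_al), module FCA: matrix facts -/

set_option autoImplicit false

namespace Pool.Agent.Helper45.AL

open Matrix ComplexConjugate Pool.Agent.Helper94.YG
open Pool.Agent.Helper94.YF hiding StORB
open Pool.Agent.Helper89.OS Pool.Agent.Helper89.OC Pool.Agent.Helper79.AL

private theorem ext4 {L : ℕ} {A B : SL L} (h1 : A.1 0 0 = B.1 0 0) (h2 : A.1 0 1 = B.1 0 1)
    (h3 : A.1 1 0 = B.1 1 0) (h4 : A.1 1 1 = B.1 1 1) : A = B := by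
  apply Subtype.ext
  ext i j
  fin_cases i <;> fin_cases j
  · exact h1
  · exact h2
  · exact h3
  · exact h4

private theorem mulE {L : ℕ} (A B : SL L) (i j : Fin 2) :
    (A * B).1 i j = A.1 i 0 * B.1 0 j + A.1 i 1 * B.1 1 j := by
  change (A.1 * B.1) i j = _
  rw [Matrix.mul_apply, Fin.sum_univ_two]

private theorem u00 {L : ℕ} (z : ZMod L) : (U z).1 0 0 = 1 := rfl
private theorem u01 {L : ℕ} (z : ZMod L) : (U z).1 0 1 = z := rfl
private theorem u10 {L : ℕ} (z : ZMod L) : (U z).1 1 0 = 0 := rfl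
private theorem u11 {L : ℕ} (z : ZMod L) : (U z).1 1 1 = 1 := rfl
private theorem l00 {L : ℕ} (z : ZMod L) : (Lo z).1 0 0 = 1 := rfl
private theorem l01 {L : ℕ} (z : ZMod L) : (Lo z).1 0 1 = 0 := rfl
private theorem l10 {L : ℕ} (z : ZMod L) : (Lo z).1 1 0 = z := rfl
private theorem l11 {L : ℕ} (z : ZMod L) : (Lo z).1 1 1 = 1 := rfl
private theorem m00 {L : ℕ} : (Sm : SL L).1 0 0 = 0 := rfl
private theorem m01 {L : ℕ} : (Sm : SL L).1 0 1 = -1 := rfl
private theorem m10 {L : ℕ} : (Sm : SL L).1 1 0 = 1 := rfl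
private theorem m11 {L : ℕ} : (Sm : SL L).1 1 1 = 0 := rfl
private theorem d00 {L : ℕ} (c : (ZMod L)ˣ) : (Dg c).1 0 0 = (c : ZMod L) := rfl
private theorem d01 {L : ℕ} (c : (ZMod L)ˣ) : (Dg c).1 0 1 = 0 := rfl
private theorem d10 {L : ℕ} (c : (ZMod L)ˣ) : (Dg c).1 1 0 = 0 := rfl
private theorem d11 {L : ℕ} (c : (ZMod L)ˣ) : (Dg c).1 1 1 = ((c⁻¹ : (ZMod L)ˣ) : ZMod L) := rfl
private theorem o00 {L : ℕ} : (1 : SL L).1 0 0 = 1 := rfl
private theorem o01 {L : ℕ} : (1 : SL L).1 0 1 = 0 := rfl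
private theorem o10 {L : ℕ} : (1 : SL L).1 1 0 = 0 := rfl
private theorem o11 {L : ℕ} : (1 : SL L).1 1 1 = 1 := rfl

private theorem s00 {L : ℕ} {b : ZMod L} (hb : b * b = b) : (s2 b).1 0 0 = 1 - b := by
  simp only [s2, mulE, u00, u01, u10, u11, l00, l01, l10, l11]
  linear_combination (-1 : ZMod L) * hb
private theorem s01 {L : ℕ} {b : ZMod L} (hb : b * b = b) : (s2 b).1 0 1 = -b := by
  simp only [s2, mulE, u00, u01, u10, u11, l00, l01, l10, l11]
  grind
private theorem s10 {L : ℕ} {b : ZMod L} : (s2 b).1 1 0 = b := by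
  simp only [s2, mulE, u00, u01, u10, u11, l00, l01, l10, l11]
  ring
private theorem s11 {L : ℕ} {b : ZMod L} (hb : b * b = b) : (s2 b).1 1 1 = 1 - b := by
  simp only [s2, mulE, u00, u01, u10, u11, l00, l01, l10, l11]
  linear_combination (-1 : ZMod L) * hb

private theorem DD {L : ℕ} (c c' : (ZMod L)ˣ) : (Dg (c * c') : SL L) = Dg c * Dg c' := by
  apply ext4 <;> simp only [mulE, d00, d01, d10, d11, mul_inv, Units.val_mul] <;> ring

private theorem D1 {L : ℕ} : (Dg (1 : (ZMod L)ˣ) : SL L) = 1 := by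
  apply ext4 <;> simp [d00, d01, d10, d11, o00, o01, o10, o11]

private theorem SmE {L : ℕ} (c : ZMod L) (hc : c * c = c) :
    (s2 (1 - c) * s2 c : SL L) = Sm := by
  have hc' : (1 - c) * (1 - c) = 1 - c := by linear_combination hc
  apply ext4 <;> simp only [mulE, s00 hc, s01 hc, s10, s11 hc, s00 hc', s01 hc', s11 hc', m00, m01,
    m10, m11]
  all_goals grind

private theorem comE {L : ℕ} (c c' : ZMod L) (hc : c * c = c) (hc' : c' * c' = c')
    (h0 : c * c' = 0) : (s2 c * s2 c' : SL L) = s2 c' * s2 c := by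
  apply ext4 <;> simp only [mulE, s00 hc, s01 hc, s10, s11 hc, s00 hc', s01 hc', s11 hc']
  all_goals grind

private theorem UsE {L : ℕ} (c c' : ZMod L) (hc' : c' * c' = c')
    (h0 : c * c' = 0) : (U c * s2 c' : SL L) = s2 c' * U c := by
  apply ext4 <;> simp only [mulE, s10, s00 hc', s01 hc', s11 hc', u00, u01, u10, u11]
  all_goals grind

private theorem DSm {L : ℕ} (x : (ZMod L)ˣ) : (Dg x * Sm : SL L) = Sm * Dg x⁻¹ := by
  apply ext4 <;> simp only [mulE, m00, m01, m10, m11, d00, d01, d10, d11, inv_inv] <;> ring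

private theorem DUE {L : ℕ} (x : (ZMod L)ˣ) (c : ZMod L) (h : ((x : ZMod L) - 1) * c = 0) :
    (Dg x * U c : SL L) = U c * Dg x := by
  have h1 : (x : ZMod L) * ((x⁻¹ : (ZMod L)ˣ) : ZMod L) = 1 := Units.mul_inv x
  apply ext4 <;> simp only [mulE, u00, u01, u10, u11, d00, d01, d10, d11]
  all_goals generalize ((x⁻¹ : (ZMod L)ˣ) : ZMod L) = y at *
  all_goals generalize (x : ZMod L) = z at *
  all_goals grind

private theorem DsE {L : ℕ} (x : (ZMod L)ˣ) (c : ZMod L) (hc : c * c = c)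
    (h : ((x : ZMod L) - 1) * c = 0) : (Dg x * s2 c : SL L) = s2 c * Dg x := by
  have h1 : (x : ZMod L) * ((x⁻¹ : (ZMod L)ˣ) : ZMod L) = 1 := Units.mul_inv x
  have h2 : ((x⁻¹ : (ZMod L)ˣ) : ZMod L) * c = c := by
    linear_combination (-((x⁻¹ : (ZMod L)ˣ) : ZMod L)) * h + c * h1
  have h3 : (x : ZMod L) * c = c := by linear_combination h
  apply ext4 <;> simp only [mulE, s00 hc, s01 hc, s10, s11 hc, d00, d01, d10, d11]
  · ring
  · linear_combination h2 - h3
  · linear_combination h2 - h3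
  · ring

private theorem DsE' {L : ℕ} (x : (ZMod L)ˣ) (c : ZMod L) (hc : c * c = c)
    (h : ((x : ZMod L) - 1) * (1 - c) = 0) : (Dg x * s2 c : SL L) = s2 c * Dg x⁻¹ := by
  have h1 : (x : ZMod L) * ((x⁻¹ : (ZMod L)ˣ) : ZMod L) = 1 := Units.mul_inv x
  have h2 : ((x⁻¹ : (ZMod L)ˣ) : ZMod L) * (1 - c) = 1 - c := by
    linear_combination (-((x⁻¹ : (ZMod L)ˣ) : ZMod L)) * h + (1 - c) * h1
  have h3 : (x : ZMod L) * (1 - c) = 1 - c := by linear_combination h
  apply ext4 <;> simp only [mulE, s00 hc, s01 hc, s10, s11 hc, d00, d01, d10, d11, inv_inv]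
  · linear_combination h3 - h2
  · ring
  · ring
  · linear_combination h2 - h3

private lemma mulL {I : Type} [Fintype I] [DecidableEq I] (Z : CentreData I)
    (Pi : (ZMod Z.L)ˣ → I → I)
    (prm : ∀ c i k, Z.rho (Dg c) i k = if k = Pi c i then 1 else 0)
    (c : (ZMod Z.L)ˣ) (M : Matrix I I ℂ) (i k : I) :
    (Z.rho (Dg c) * M) i k = M (Pi c i) k := by
  rw [Matrix.mul_apply]
  rw [Finset.sum_eq_single (Pi c i)]
  · rw [prm, if_pos rfl, one_mul]
  · intro l _ hl
    rw [prm, if_neg hl, zero_mul]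
  · intro h; exact absurd (Finset.mem_univ _) h

private lemma piMul {I : Type} [Fintype I] [DecidableEq I] (Z : CentreData I)
    (Pi : (ZMod Z.L)ˣ → I → I)
    (prm : ∀ c i k, Z.rho (Dg c) i k = if k = Pi c i then 1 else 0)
    (c c' : (ZMod Z.L)ˣ) (i : I) : Pi (c * c') i = Pi c' (Pi c i) := by
  have h : Z.rho (Dg (c * c')) i (Pi (c * c') i) = (Z.rho (Dg c) * Z.rho (Dg c')) i (Pi (c * c') i) := by
    rw [DD, map_mul]
  rw [mulL Z Pi prm, prm, if_pos rfl, prm] at h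
  by_contra hne
  rw [if_neg hne] at h
  exact one_ne_zero h

private lemma piOne {I : Type} [Fintype I] [DecidableEq I] (Z : CentreData I)
    (Pi : (ZMod Z.L)ˣ → I → I)
    (prm : ∀ c i k, Z.rho (Dg c) i k = if k = Pi c i then 1 else 0) (i : I) : Pi 1 i = i := by
  have h : Z.rho (Dg 1) i i = (1 : Matrix I I ℂ) i i := by
    rw [D1, map_one]
  rw [prm, Matrix.one_apply_eq] at h
  by_contra hne
  rw [if_neg (fun h' => hne h'.symm)] at h
  exact zero_ne_one h

private lemma mulR {I : Type} [Fintype I] [DecidableEq I] (Z : CentreData I)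
    (Pi : (ZMod Z.L)ˣ → I → I)
    (prm : ∀ c i k, Z.rho (Dg c) i k = if k = Pi c i then 1 else 0)
    (c c' : (ZMod Z.L)ˣ) (h1 : ∀ i, Pi c (Pi c' i) = i) (h2 : ∀ i, Pi c' (Pi c i) = i)
    (M : Matrix I I ℂ) (i k : I) :
    (M * Z.rho (Dg c)) i k = M i (Pi c' k) := by
  rw [Matrix.mul_apply]
  rw [Finset.sum_eq_single (Pi c' k)]
  · rw [prm, h1, if_pos rfl, mul_one]
  · intro l _ hl
    rw [prm, if_neg, mul_zero]
    intro h
    apply hl
    rw [h, h2]
  · intro h; exact absurd (Finset.mem_univ _) h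

private lemma uni_aux {I : Type} [Fintype I] [DecidableEq I] (M : Matrix I I ℂ)
    (hM : Mᴴ * M = 1) (v : I → ℂ) : ∑ i, ‖(M *ᵥ v) i‖ ^ 2 = ∑ i, ‖v i‖ ^ 2 := by
  have key : ∀ w : I → ℂ, ((∑ i, ‖w i‖ ^ 2 : ℝ) : ℂ) = star w ⬝ᵥ w := by
    intro w
    simp only [dotProduct, Pi.star_apply]
    push_cast
    apply Finset.sum_congr rfl
    intro i _
    exact (Complex.conj_mul' (w i)).symm
  have h : star (M *ᵥ v) ⬝ᵥ (M *ᵥ v) = star v ⬝ᵥ v := by
    rw [Matrix.star_mulVec, ← Matrix.dotProduct_mulVec, Matrix.mulVec_mulVec, hM,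
      Matrix.one_mulVec]
  have h3 := (key _).trans (h.trans (key _).symm)
  exact_mod_cast h3

theorem hFCA : StFCA := by
  intro I _ _ Z
  have hDUA := Helper88.YF.hDUA
  have hFUS := Helper36.YF.hFUS
  obtain ⟨hU, hthL, htwadd, htw0, htw1, htwo, htwc, -, -, -, -⟩ := hFUS hDUA I Z.toCentreRep
  have hU' : ∀ x, Z.rho (U x) = Matrix.diagonal (Z.tw x) := hU
  have hprm : ∀ c : (ZMod Z.L)ˣ, ∃ π : I → I, ∀ i k, Z.rho (Dg c) i k = if k = π i then 1 else 0 :=
    fun c => Helper36.OS.hPRM Helper90.OS.hAUT hDUA hFUS I Z.toCentreRep c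
  choose Pi prm using hprm
  have inv1 : ∀ (x : (ZMod Z.L)ˣ) (i : I), Pi x (Pi x⁻¹ i) = i := by
    intro x i
    rw [← piMul Z Pi prm, inv_mul_cancel, piOne Z Pi prm]
  have inv2 : ∀ (x : (ZMod Z.L)ˣ) (i : I), Pi x⁻¹ (Pi x i) = i := by
    intro x i
    rw [← piMul Z Pi prm, mul_inv_cancel, piOne Z Pi prm]
  have mL : ∀ (w : (ZMod Z.L)ˣ) (M : Matrix I I ℂ) (i k : I),
      (Z.rho (Dg w) * M) i k = M (Pi w i) k := fun w M i k => mulL Z Pi prm w M i k
  have mR : ∀ (w : (ZMod Z.L)ˣ) (M : Matrix I I ℂ) (i k : I),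
      (M * Z.rho (Dg w)) i k = M i (Pi w⁻¹ k) := fun w M i k =>
    mulR Z Pi prm w w⁻¹ (inv1 w) (inv2 w) M i k
  have hn : (Z.n : ℂ) ≠ 0 := by
    have := Z.n_pos
    exact_mod_cast this.ne'
  refine ⟨?_, ?_, ?_, ?_, ?_, ?_⟩
  · intro c i k
    exact (Helper33.OS.hENT hFUS hDUA I Z.toCentreRep c).1 i k
  · intro g v
    exact uni_aux _ (Z.unitary g) v
  · intro c hc
    rw [← map_mul, SmE c hc]
  · intro c c' hc hc' h0
    rw [← map_mul, ← map_mul, comE c c' hc hc' h0]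
  · intro c c' hc hc' h0 i k hik
    have h1 : (Z.rho (U c) * Z.rho (s2 c')) i k = (Z.rho (s2 c') * Z.rho (U c)) i k := by
      rw [← map_mul, ← map_mul, UsE c c' hc' h0]
    rw [hU', Matrix.diagonal_mul, Matrix.mul_diagonal, mul_comm] at h1
    exact mul_left_cancel₀ hik h1
  · intro x
    refine ⟨Pi x, ?_, prm x, ?_, ?_, ?_, ?_, ?_, ?_⟩
    · exact Function.bijective_iff_has_inverse.mpr ⟨Pi x⁻¹, inv2 x, inv1 x⟩
    · intro i
      have h1 := Z.borel x i
      have h2 := prm x i Z.o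
      rw [h2] at h1
      constructor
      · intro h
        by_contra hne
        rw [if_pos h.symm, if_neg hne] at h1
        exact one_ne_zero h1
      · intro h
        by_contra hne
        rw [if_neg (fun h' => hne h'.symm), if_pos h] at h1
        exact zero_ne_one h1
    · intro i
      obtain ⟨σ, hσ⟩ := Helper90.OS.hAUT I Z.toCentreRep x
      have h1 := hσ Sm (Dg x * Sm) (by simp only [mulE, d00, d01, m00, m10]; ring)
        (by simp only [mulE, d00, d01, m01, m11]; ring)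
        (by
          simp only [mulE, d10, d11, m00, m10]
          linear_combination Units.mul_inv x)
        (by simp only [mulE, d10, d11, m01, m11]; ring) i Z.o
      rw [map_mul, mL, Z.s_symm, Z.s_o, Z.s_symm, Z.s_o] at h1
      rw [map_div₀, map_natCast, map_natCast] at h1
      have h2 : (Z.d (Pi x i) : ℂ) = Z.d i := by
        field_simp at h1
        exact h1
      exact_mod_cast h2
    · intro i k
      have h1 : (Z.rho (Dg x) * Z.rho Sm) i k = (Z.rho Sm * Z.rho (Dg x⁻¹)) i k := by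
        rw [← map_mul, ← map_mul, DSm]
      rw [mL, mR, inv_inv] at h1
      exact h1
    · intro c hc i
      have h1 : (Z.rho (Dg x) * Z.rho (U c)) i (Pi x i) =
          (Z.rho (U c) * Z.rho (Dg x)) i (Pi x i) := by
        rw [← map_mul, ← map_mul, DUE x c hc]
      rw [mL, mR, inv2, hU', Matrix.diagonal_apply_eq, Matrix.diagonal_apply_eq] at h1
      exact h1
    · intro c hc hx i k
      have h1 : (Z.rho (Dg x) * Z.rho (s2 c)) i (Pi x k) =
          (Z.rho (s2 c) * Z.rho (Dg x)) i (Pi x k) := by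
        rw [← map_mul, ← map_mul, DsE x c hc hx]
      rw [mL, mR, inv2] at h1
      exact h1
    · intro c hc hx i k
      have h1 : (Z.rho (Dg x) * Z.rho (s2 c)) i k = (Z.rho (s2 c) * Z.rho (Dg x⁻¹)) i k := by
        rw [← map_mul, ← map_mul, DsE' x c hc hx]
      rw [mL, mR, inv_inv] at h1
      exact h1

end Pool.Agent.Helper45.AL
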